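import Mathlib

set_option autoImplicit false

namespace Pool.Agent.Results.MP_c6a6a6_lc.NotMS

open Set FirstOrder FirstOrder.Language

/-- function symbols `+`, `-`, `1` -/
inductive Fn : ℕ → Type
  | add : Fn 2
  | sub : Fn 2
  | one : Fn 0

/-- unary predicates `P_m` (`m ≥ 1`) and `U_{p,l}` -/
inductive Rl : ℕ → Type
  | P (m : ℕ+) : Rl 1
  | U (p : Nat.Primes) (l : ℤ) : Rl 1

/-- the language of `T_Sqf` -/
def L : Language := ⟨Fn, Rl⟩

/-- the intended structure on the integers (`v_p 0 = ∞`) -/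
instance : L.Structure ℤ where
  funMap {n} f x := match n, f with
    | _, .add => x 0 + x 1
    | _, .sub => x 0 - x 1
    | _, .one => 1
  RelMap {n} r x := match n, r with
    | _, .P m => x 0 ≠ 0 ∧ ∀ p : ℕ, p.Prime → padicValInt p (x 0) < 2 + padicValNat p m
    | _, .U p l => x 0 = 0 ∨ l ≤ padicValInt p (x 0)

/-- `h` makes `M` MS-measurable; `h n X = (dimension, measure)` for `X ⊆ M ^ n`. -/
structure IsMS (M : Type*) [L.Structure M] (h : (n : ℕ) → Set (Fin n → M) → ℕ × ℝ) : Prop where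
  values : ∀ n, 1 ≤ n → ∀ X, (univ : Set M).Definable L X → 0 < (h n X).2 ∨ h n X = (0, 0)
  uniform : ∀ n m, 1 ≤ n → ∀ φ : L.Formula (Fin n ⊕ Fin m),
    (range fun b : Fin m → M => h n {x | φ.Realize (Sum.elim x b)}).Finite ∧
      ∀ v : ℕ × ℝ, (∅ : Set M).Definable L {b : Fin m → M | h n {x | φ.Realize (Sum.elim x b)} = v}
  finite : ∀ n, 1 ≤ n → ∀ X : Set (Fin n → M), X.Finite → h n X = (0, (X.ncard : ℝ))
  fubini : ∀ n m, 1 ≤ n → 1 ≤ m → ∀ (X : Set (Fin n → M)) (Y : Set (Fin m → M))
    (f : (Fin n → M) → (Fin m → M)), (univ : Set M).Definable L X → (univ : Set M).Definable L Y →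
    (univ : Set M).DefinableMap L f → f '' X = Y →
    ∃ (r : ℕ) (Z : Fin r → Set (Fin m → M)) (d : Fin r → ℕ × ℝ),
      (∀ i, (univ : Set M).Definable L (Z i) ∧ (Z i).Nonempty) ∧
      Pairwise (fun i j => Disjoint (Z i) (Z j)) ∧ ⋃ i, Z i = Y ∧
      (∀ i, ∀ y ∈ Z i, h n (X ∩ f ⁻¹' {y}) = d i) ∧
      (h n X).1 = Finset.univ.sup (fun i => (d i).1 + (h m (Z i)).1) ∧
      (h n X).2 = ∑ i with (d i).1 + (h m (Z i)).1 = (h n X).1, (d i).2 * (h m (Z i)).2

lemma additive {M : Type*} [L.Structure M] [Infinite M] {h : (n : ℕ) → Set (Fin n → M) → ℕ × ℝ}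
    (H : IsMS M h) {r : ℕ} (Y : Fin r → Set (Fin 1 → M))
    (h1 : ∀ i, (univ : Set M).Definable L (Y i) ∧ (Y i).Nonempty)
    (h2 : Pairwise fun i j => Disjoint (Y i) (Y j)) (h3 : ⋃ i, Y i = univ) :
    (h 1 univ).2 = ∑ i with (h 1 (Y i)).1 = (h 1 univ).1, (h 1 (Y i)).2 := by
  classical
  let a : Fin r → M := fun i => Infinite.natEmbedding M i
  have ha : Function.Injective fun i => fun _ : Fin 1 => a i := fun i j e =>
    Fin.ext ((Infinite.natEmbedding M).injective (congrFun e 0))
  choose k hk using fun y => mem_iUnion.1 (h3.ge (mem_univ y))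
  have hk' : ∀ y i, k y = i ↔ y ∈ Y i := fun y i => ⟨fun e => e ▸ hk y, fun e => by
    by_contra hc
    exact disjoint_left.1 (h2 hc) (hk y) e⟩
  have d1 : ∀ i, (univ : Set M).Definable L {v : Option (Fin 1) → M | a i = v none} := fun i =>
    (L.definableFun_const _ (mem_univ _)).ofPred_eq (DefinableFun.proj L)
  have e0 : (fun y _ => a (k y)) '' univ = range fun i => fun _ : Fin 1 => a i := by
    ext y
    simp only [image_univ, mem_range]
    exact ⟨fun ⟨x, e⟩ => ⟨_, e⟩, fun ⟨i, e⟩ => let ⟨x, hx⟩ := (h1 i).2; ⟨x, (hk' x i).2 hx ▸ e⟩⟩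
  obtain ⟨s, Z, d, z1, z2, z3, z4, -, z6⟩ := H.fubini 1 1 le_rfl le_rfl univ _
    (fun y _ => a (k y)) definable_univ (by
      have := definable_iUnion_of_finite fun i =>
        (L.definableFun_const (Fin 1) (mem_univ (a i))).ofPred_eq (DefinableFun.proj L (i := 0))
      convert this using 1
      ext y; simp [funext_iff, Fin.forall_fin_one]) (fun _ => by
      have := definable_iUnion_of_finite fun i => ((h1 i).1.preimage_comp some).inter (d1 i)
      unfold DefinableFun
      convert this using 1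
      ext v
      simp only [Function.tupleGraph, mem_ofPred_eq, mem_iUnion, mem_inter_iff, mem_preimage]
      exact ⟨fun e => ⟨_, hk _, e⟩, fun ⟨i, e1, e2⟩ => (hk' _ i).2 e1 ▸ e2⟩) e0
  choose j hj using fun i => mem_iUnion.1 (z3.ge (mem_range_self i))
  have hd : ∀ i, h 1 (Y i) = d (j i) := fun i => by
    rw [← z4 _ _ (hj i)]
    congr 1
    ext y
    simp only [mem_inter_iff, mem_univ, true_and, mem_preimage, mem_singleton_iff]
    exact (hk' y i).symm.trans ha.eq_iff.symm
  have hZ : ∀ t, h 1 (Z t) = (0, ((Finset.univ.filter fun i => j i = t).card : ℝ)) := fun t => by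
    have : Z t = (fun i => fun _ : Fin 1 => a i) '' (Finset.univ.filter fun i => j i = t) := by
      ext y
      refine ⟨fun hy => ?_, fun ⟨i, hi, e⟩ => ?_⟩
      · obtain ⟨i, rfl⟩ := z3.le (mem_iUnion.2 ⟨t, hy⟩)
        refine ⟨i, ?_, rfl⟩
        by_contra hc
        exact disjoint_left.1 (z2 (by simpa using hc)) (hj i) hy
      · rw [← e, ← (Finset.mem_filter.1 hi).2]; exact hj i
    rw [H.finite 1 le_rfl _ (this ▸ (Finset.finite_toSet _).image _), this,
      ncard_image_of_injective _ ha, ncard_coe_finset]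
  rw [z6, Finset.sum_filter, Finset.sum_filter, ← Finset.sum_fiberwise Finset.univ j]
  refine Finset.sum_congr rfl fun t _ => ?_
  rw [Finset.sum_congr rfl (g := fun _ => if (d t).1 = (h 1 univ).1 then (d t).2 else 0)
    fun i hi => by rw [hd, (Finset.mem_filter.1 hi).2] ]
  simp [hZ, mul_comm]

def ad {α : Type} (s t : L.Term α) : L.Term α := .func Fn.add ![s, t]
def on {α : Type} : L.Term α := .func Fn.one ![]

theorem result (M : Type*) [L.Structure M] (hM : M ≅[L] ℤ) :
    ¬ ∃ h : (n : ℕ) → Set (Fin n → M) → ℕ × ℝ, IsMS M h := by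
  classical
  rintro ⟨h, H⟩
  let A : M → M → M := fun x y => Structure.funMap (L := L) Fn.add ![x, y]
  let o : M := Structure.funMap (L := L) Fn.one ![]
  have rA : ∀ {α : Type} (s t : L.Term α) (v : α → M),
      (ad s t).realize v = A (s.realize v) (t.realize v) := fun s t v =>
    congrArg _ (funext fun i => by fin_cases i <;> rfl)
  have ro : ∀ {α : Type} (v : α → M), (on : L.Term α).realize v = o := fun v =>
    congrArg (Structure.funMap (L := L) Fn.one) (Subsingleton.elim _ _)
  have zA : ∀ {α : Type} (s t : L.Term α) (v : α → ℤ),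
      (ad s t).realize v = s.realize v + t.realize v := fun s t v => rfl
  have zo : ∀ {α : Type} (v : α → ℤ), (on : L.Term α).realize v = 1 := fun v => rfl
  have s1 : ∀ x y, A x x = A y y → x = y := by
    simpa [Sentence.Realize, Formula.Realize, rA, Fin.snoc] using
      (hM.realize_sentence (∀' ∀' (ad &0 &0 =' ad &1 &1 ⟹ &0 =' &1))).2 (by
        simp [Sentence.Realize, Formula.Realize, zA, Fin.snoc]; omega)
  have s2 : ∀ x y, A (A x x) o = A (A y y) o → x = y := by
    simpa [Sentence.Realize, Formula.Realize, rA, ro, Fin.snoc] using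
      (hM.realize_sentence (∀' ∀' (ad (ad &0 &0) on =' ad (ad &1 &1) on ⟹ &0 =' &1))).2 (by
        simp [Sentence.Realize, Formula.Realize, zA, zo, Fin.snoc]; omega)
  have s3 : ∀ x y, A x x ≠ A (A y y) o := by
    simpa [Sentence.Realize, Formula.Realize, rA, ro, Fin.snoc] using
      (hM.realize_sentence (∀' ∀' ∼(ad &0 &0 =' ad (ad &1 &1) on))).2 (by
        simp [Sentence.Realize, Formula.Realize, zA, zo, Fin.snoc]; omega)
  have s4 : ∀ x, ∃ y, x = A y y ∨ x = A (A y y) o := by
    simpa [Sentence.Realize, Formula.Realize, rA, ro, Fin.snoc] using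
      (hM.realize_sentence (∀' ∃' (&0 =' ad &1 &1 ⊔ &0 =' ad (ad &1 &1) on))).2 (by
        simp only [Sentence.Realize, Formula.Realize, BoundedFormula.realize_all,
          BoundedFormula.realize_ex, BoundedFormula.realize_sup, BoundedFormula.realize_bdEqual,
          zA, zo]
        intro x
        refine ⟨x / 2, ?_⟩
        simp [Fin.snoc]; omega)
  have : Infinite M := not_finite_iff_infinite.1 fun _ => by
    obtain ⟨x, hx⟩ := Finite.surjective_of_injective (f := fun x => A x x) s1 (A (A o o) o)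
    exact s3 _ _ hx
  choose g hg using s4
  have hg' : ∀ x y, g x = y ↔ x = A y y ∨ x = A (A y y) o := fun x y => ⟨fun e => e ▸ hg x, by
    rintro (e | e) <;> rcases hg x with e' | e'
    · exact s1 _ _ (e'.symm.trans e)
    · exact (s3 _ _ (e.symm.trans e')).elim
    · exact (s3 _ _ (e'.symm.trans e)).elim
    · exact s2 _ _ (e'.symm.trans e)⟩
  obtain ⟨r, Y, d, y1, y2, y3, y4, -, y6⟩ := H.fubini 1 1 le_rfl le_rfl univ univ
    (fun x _ => g (x 0)) definable_univ definable_univ (fun _ => DefinableFun.of_empty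
      (empty_definableFun_iff.2 ⟨(Term.var (some 0)).equal (ad (.var none) (.var none)) ⊔
        (Term.var (some 0)).equal (ad (ad (.var none) (.var none)) on), by
          ext v; simp [Function.tupleGraph, hg', rA, ro]⟩))
    (eq_univ_of_forall fun y => ⟨fun _ => A (y 0) (y 0), trivial,
      funext fun i => ((hg' _ _).2 (Or.inl rfl)).trans (congrArg y (Subsingleton.elim _ _))⟩)
  have hd : ∀ i, d i = (0, 2) := fun i => by
    obtain ⟨y, hy⟩ := (y1 i).2
    have : univ ∩ (fun (x : Fin 1 → M) (_ : Fin 1) => g (x 0)) ⁻¹' {y} =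
        {fun _ => A (y 0) (y 0), fun _ => A (A (y 0) (y 0)) o} := by
      ext x; simp [funext_iff, Fin.forall_fin_one, hg']
    rw [← y4 i y hy, this, H.finite 1 le_rfl _ (toFinite _),
      ncard_pair fun e => s3 _ _ (congrFun e 0)]
    rfl
  have e1 := additive H Y y1 y2 y3
  simp only [hd, zero_add, ← Finset.mul_sum] at y6
  have e2 : h 1 univ = (0, 0) := (H.values 1 le_rfl _ definable_univ).resolve_left (by linarith)
  have dp : (univ : Set M).Definable L {fun _ : Fin 1 => o} := by
    convert (DefinableFun.proj L (i := (0 : Fin 1))).ofPred_eq_const (mem_univ o) using 1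
    ext y; simp [funext_iff, Fin.forall_fin_one]
  obtain ⟨q, hq⟩ := exists_ne o
  have e3 := additive H ![{fun _ => o}, {fun _ => o}ᶜ]
    (Fin.forall_fin_two.2 ⟨⟨dp, singleton_nonempty _⟩, dp.compl, fun _ => q,
      fun e => hq (congrFun e 0)⟩)
    (fun i j hij => by
      fin_cases i <;> fin_cases j <;> simp at hij ⊢)
    (by ext y; simp [em])
  have e4 : 0 ≤ (h 1 {fun _ => o}ᶜ).2 :=
    (H.values 1 le_rfl _ dp.compl).elim le_of_lt fun e => by rw [e]
  rw [Finset.sum_filter, Fin.sum_univ_two, e2] at e3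
  simp only [Matrix.cons_val_zero, Matrix.cons_val_one, H.finite 1 le_rfl _ (finite_singleton _),
    ncard_singleton] at e3
  split_ifs at e3 <;> simp at e3 <;> linarith

end Pool.Agent.Results.MP_c6a6a6_lc.NotMS
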